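import Pool.Agent.Q175.RW.SX5

/-!
# The first and third absolute moments of eigenfunctions (MP_a52643_an)

A Riemannian surface in isothermal coordinates: an open set `Ω ⊆ ℂ` with the metric `ρ |dz|²`, of
finite area (it need not be relatively compact: a compact surface, or a surface of finite area, cut
along arcs). `dx f z`, `dy f z` are the partial derivatives `fderiv ℝ f z 1`, `fderiv ℝ f z I`, and
`lap f = dx (dx f) + dy (dy f)`; `TF Ω φ` says that `φ : ℂ → ℝ` is smooth with compact support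
contained in `Ω`.

In the metric rescaled by `λ` the operator `D = (λ ρ)^{-1/2} (∂x - i ∂y)` is the derivative
`∂_1 - i ∂_2` in the conformal orthonormal frame; at a unit momentum of direction `α` its symbol is
`sym α = i exp(-iα)`. The hypothesis `hsc` says that the semiclassical measure of `u n` projects to
the area measure, with conditional laws `κ z` of the directions; the hypothesis `hpar` says that
`κ z` has no atoms modulo `π`. Quantum ergodicity (`κ z` uniform) is a special case, with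
`angle = 1`.

For a standard Gaussian `E x⁴ = 3`, `E |x| = 0.798` and `E |x|³ = 1.596`. Hoelder's inequality with
the second moment `1` and the fourth moment `3` gives `E |x| ≥ 3^{-1/2} = 0.577` and
`E |x|³ ≤ 3^{1/2} = 1.732`; here `0.64` and `1.7` (uniform directions).

Proof idea. With `P' = w` one has, up to `o(1)`,
`∫ (2 u P(u) - w(u)²) ≤ ∫ u⁴ - ∫ (2 - 2 E cos²)` for every bounded continuous `w` with bounded
primitive `P`; the numerical inequalities
`0.64 + 0.965 (x² - 1) - 0.082 (x⁴ - 3) - 0.038 (2 x P - w² - 2) ≤ |x|` for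
`w = t (5/2 - t) (33/10 - 3t/2)`, `t = min(|x|, 5/2)`, and
`|x|³ ≤ 1.7 + 0.86 (x² - 1) + 0.261 (x⁴ - 3) + 0.024 (2 x P - w² - 2)` for `w = 3 t (2 - t)`,
`t = min(|x|, 2)`, give the result.
-/

set_option autoImplicit false
open MeasureTheory Filter Topology Complex ProbabilityTheory
open scoped ContDiff ENNReal

namespace Pool.Agent.Results.MP_a52643_an.AbsoluteMoments

open Pool.Agent.W745.RW (TF dx dy lap)

/-- the normalised frame derivative `(λ ρ)^{-1/2} (∂x - i ∂y)` -/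
noncomputable def D (ρ : ℂ → ℝ) (lam : ℝ) (f : ℂ → ℂ) (z : ℂ) : ℂ :=
  ((1 / √(lam * ρ z) : ℝ) : ℂ) * (dx f z - I * dy f z)

/-- the symbol of `D` at a unit momentum of direction `α` -/
noncomputable def sym (α : ℝ) : ℂ := I * Complex.exp (-(α : ℂ) * I)

/-- the probability that two independent directions of law `ν` are parallel (equal or opposite) -/
noncomputable def parallel (ν : Measure ℝ) : ℝ :=
  (ν.prod ν).real {p | Real.sin (p.1 - p.2) = 0}

/-- the area measure of the metric `ρ |dz|²` on `Ω` -/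
noncomputable def area (Ω : Set ℂ) (ρ : ℂ → ℝ) : Measure ℂ :=
  (volume.restrict Ω).withDensity (fun z => ENNReal.ofReal (ρ z))

/-- the mean over the surface of `2 cos²` of the angle between two independent directions;
it is at most `2`, and it is `1` for uniform directions -/
noncomputable def angle (Ω : Set ℂ) (ρ : ℂ → ℝ) (κ : Kernel ℂ ℝ) : ℝ :=
  (∫ z, (∫ p, 2 * Real.cos (p.1 - p.2) ^ 2 ∂((κ z).prod (κ z))) ∂(area Ω ρ)) /
    (area Ω ρ Set.univ).toReal

/-- **Result.** Let `Ω` be a surface of finite area with metric `ρ |dz|²` and `u n` real solutions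
of `Δu + λ_n u = 0` (that is `lap u + λ_n ρ u = 0`), `λ_n → ∞`, equidistributed, with semiclassical
measure `κ_z dvol(z)`, `κ_z` without atoms modulo `π`, and with
`limsup ∫ u⁴ dvol ≤ K area(Ω)`. Then
`liminf ∫ |u_n| / area ≥ 0.64 - 0.12 (K - 3) - 0.038 (angle - 1)` and
`limsup ∫ |u_n|³ / area ≤ 1.7 + 0.285 (K - 3) + 0.024 (angle - 1)`. -/
theorem result (Ω : Set ℂ) (ρ : ℂ → ℝ) (lam : ℕ → ℝ) (u : ℕ → ℂ → ℝ)
    (κ : Kernel ℂ ℝ) [IsMarkovKernel κ] (K : ℝ) (oΩ : IsOpen Ω) (ne : Ω.Nonempty)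
    (sρ : ContDiffOn ℝ ∞ ρ Ω) (pρ : ∀ z ∈ Ω, 0 < ρ z) (fin : area Ω ρ Set.univ ≠ ⊤)
    (lp : ∀ n, 0 < lam n) (ll : Tendsto lam atTop atTop)
    (su : ∀ n, ContDiffOn ℝ ∞ (u n) Ω)
    (eq : ∀ n, ∀ z ∈ Ω, lap (u n) z + lam n * (ρ z * u n z) = 0)
    (hsc : ∀ φ, TF Ω φ → ∀ k : ℕ, Tendsto (fun n => ∫ z, ((φ z * ρ z : ℝ) : ℂ) *
      ((u n z : ℂ) * (D ρ (lam n))^[k] (fun w => (u n w : ℂ)) z)) atTop
      (𝓝 (∫ z, ((φ z * ρ z : ℝ) : ℂ) * ∫ α, sym α ^ k ∂(κ z))))
    (hpar : ∀ᵐ z ∂(volume.restrict Ω), parallel (κ z) = 0)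
    (i4 : ∀ n, Integrable (fun z => u n z ^ 4) (area Ω ρ))
    (h4 : ∀ ε : ℝ, 0 < ε → ∀ᶠ n in atTop,
      ∫ z, u n z ^ 4 ∂(area Ω ρ) ≤ K * (area Ω ρ Set.univ).toReal + ε)
    (ε : ℝ) (hε : 0 < ε) :
    ∀ᶠ n in atTop,
      (16 / 25 - 3 / 25 * (K - 3) - 19 / 500 * (angle Ω ρ κ - 1) - ε) *
        (area Ω ρ Set.univ).toReal ≤ ∫ z, |u n z| ∂(area Ω ρ) ∧
      ∫ z, |u n z| ^ 3 ∂(area Ω ρ) ≤
        (17 / 10 + 57 / 200 * (K - 3) + 3 / 125 * (angle Ω ρ κ - 1) + ε) *
          (area Ω ρ Set.univ).toReal := by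
  have X : Pool.Agent.Q175.RW.LL.LD Ω ρ lam u κ K := by
    refine ⟨oΩ, ne, sρ, pρ, fin, lp, ll, su, eq, fun φ hφ k => ?_, ?_, i4, h4⟩
    · have h1 := hsc φ hφ k
      have e : ∫ z, ((φ z * ρ z : ℝ) : ℂ) *
          Pool.Agent.TH294.RG.MM (fun _ => 1) Pool.Agent.TH294.RG.ea κ k z =
          ∫ z, ((φ z * ρ z : ℝ) : ℂ) * ∫ α, sym α ^ k ∂(κ z) := by
        congr 1; funext z
        simp only [Pool.Agent.TH294.RG.MM, ofReal_one, one_mul]
        rfl
      rw [e]
      exact h1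
    · filter_upwards [hpar] with z hz
      simp only [Pool.Agent.TH294.RG.par, Pool.Agent.TH294.RG.ea_par]
      exact hz
  have V0 : 0 < (area Ω ρ Set.univ).toReal := X.pos
  have eA : ∫ z, Pool.Agent.Q175.RW.SX.ang2 κ z ∂(area Ω ρ) =
      angle Ω ρ κ * (area Ω ρ Set.univ).toReal := by
    unfold angle
    rw [div_mul_cancel₀ _ V0.ne']
    rfl
  have q1 := Pool.Agent.Q175.RW.SX.abs_low X (show 0 < ε * (area Ω ρ Set.univ).toReal by
    positivity)
  have q2 := Pool.Agent.Q175.RW.SX.abs3_up X (show 0 < ε * (area Ω ρ Set.univ).toReal by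
    positivity)
  filter_upwards [q1, q2] with n n1 n2
  have n1' : (16 / 25 - 3 / 25 * (K - 3)) * (area Ω ρ Set.univ).toReal -
      19 / 500 * ((∫ z, Pool.Agent.Q175.RW.SX.ang2 κ z ∂(area Ω ρ)) -
        (area Ω ρ Set.univ).toReal) - ε * (area Ω ρ Set.univ).toReal ≤
      ∫ z, |u n z| ∂(area Ω ρ) := n1
  have n2' : ∫ z, |u n z| ^ 3 ∂(area Ω ρ) ≤
      (17 / 10 + 57 / 200 * (K - 3)) * (area Ω ρ Set.univ).toReal +
      3 / 125 * ((∫ z, Pool.Agent.Q175.RW.SX.ang2 κ z ∂(area Ω ρ)) -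
        (area Ω ρ Set.univ).toReal) + ε * (area Ω ρ Set.univ).toReal := n2
  rw [eA] at n1' n2'
  constructor
  · refine le_trans (le_of_eq ?_) n1'
    ring
  · refine n2'.trans (le_of_eq ?_)
    ring

end Pool.Agent.Results.MP_a52643_an.AbsoluteMoments
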