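import Pool.Agent.Q175.RW.TP

/-!
# Third powers of eigenfunctions times a factor of lower frequency (MP_a52643_an)

A Riemannian surface in isothermal coordinates: an open set `Ω ⊆ ℂ` with the metric `ρ |dz|²`,
area measure `ρ dx dy`. `dx f z`, `dy f z` are the partial derivatives `fderiv ℝ f z 1`,
`fderiv ℝ f z I`, and `lap f = dx (dx f) + dy (dy f)`; `TF Ω φ` says that `φ : ℂ → ℝ` is smooth
with compact support contained in `Ω`.

In the metric rescaled by `λ` the operator `D = (λ ρ)^{-1/2} (∂x - i ∂y)` is the derivative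
`∂_1 - i ∂_2` in the conformal orthonormal frame; at a unit momentum of direction `α` its symbol is
`sym α = i exp(-iα)`. The functions `W k` (`k ∈ ℤ`) are the local field `u` with the Fourier
multiplier `(sym α)^k`; in particular `W 0 = u`. The hypothesis `hsc` says that `u n` has the
semiclassical measure `m(z) ν_z(dα) dvol(z)` on the unit cosphere bundle over `Ω`. Quantum
ergodicity is the case `m = 1`, `ν_z` uniform. The hypothesis `hpar` says that `ν_z` has no atoms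
modulo `π`.
-/

set_option autoImplicit false
open MeasureTheory Filter Topology Complex ProbabilityTheory
open scoped ContDiff ENNReal

namespace Pool.Agent.Results.MP_a52643_an.CubeTimesSlow

open Pool.Agent.W745.RW

/-- the normalised frame derivative `(λ ρ)^{-1/2} (∂x - i ∂y)` -/
noncomputable def D (ρ : ℂ → ℝ) (lam : ℝ) (f : ℂ → ℂ) (z : ℂ) : ℂ :=
  ((1 / √(lam * ρ z) : ℝ) : ℂ) * (dx f z - I * dy f z)

/-- the symbol of `D` at a unit momentum of direction `α` -/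
noncomputable def sym (α : ℝ) : ℂ := I * Complex.exp (-(α : ℂ) * I)

/-- the probability that two independent directions of law `ν` are parallel (equal or opposite) -/
noncomputable def parallel (ν : Measure ℝ) : ℝ :=
  (ν.prod ν).real {p | Real.sin (p.1 - p.2) = 0}

/-- `W k = D^k u` for `k ≥ 0` and `W k = (-1)^k conj (D^|k| u)` for `k < 0` -/
noncomputable def W (ρ : ℂ → ℝ) (lam : ℝ) (u : ℂ → ℝ) : ℤ → ℂ → ℂ
  | Int.ofNat k => (D ρ lam)^[k] (fun w => (u w : ℂ))
  | Int.negSucc k => fun z => (-1) ^ (k + 1) *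
      (starRingEnd ℂ) ((D ρ lam)^[k + 1] (fun w => (u w : ℂ)) z)

/-- `v n` are smooth real solutions of `Δv + μ_n v = 0` for the metric `ρ |dz|²` on `Ω`, `μ_n > 0`
and `μ_n → ∞` -/
structure Eigen (Ω : Set ℂ) (ρ : ℂ → ℝ) (mu : ℕ → ℝ) (v : ℕ → ℂ → ℝ) : Prop where
  pos : ∀ n, 0 < mu n
  lim : Tendsto mu atTop atTop
  smooth : ∀ n, ContDiffOn ℝ ∞ (v n) Ω
  eq : ∀ n, ∀ z ∈ Ω, lap (v n) z + mu n * (ρ z * v n z) = 0

/-- the normalising factor `1 + ∫_K v⁴` -/
noncomputable def nrm (K : Set ℂ) (v : ℂ → ℝ) : ℝ := 1 + ∫ z in K, v z ^ 4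

/-- **Result.** Let `u n` be real eigenfunctions for the metric `ρ |dz|²` on `Ω`, with eigenvalues
`λ_n → ∞` and semiclassical measure `m(z) ν_z dvol(z)`, `m` locally square integrable and `ν_z`
without atoms modulo `π`. Let `g n` be real eigenfunctions with eigenvalues `μ_n → ∞` such that
`μ_n / λ_n → 0`; they need not be normalised. Let `K ⊆ Ω` be compact and `φ` a test function
supported in its interior. Then for all integers `i`, `j`, `l` the moment
`∫ φ W_i W_j W_l g dvol` (in particular `∫ φ u³ g dvol`) is `o(nrm(u)^{3/4} nrm(g)^{1/4})`, where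
`nrm v = 1 + ∫_K v⁴`. -/
theorem result (Ω : Set ℂ) (hΩ : IsOpen Ω) (ρ : ℂ → ℝ) (hρ : ContDiffOn ℝ ∞ ρ Ω)
    (hρ0 : ∀ z ∈ Ω, 0 < ρ z) (lam mu : ℕ → ℝ) (u g : ℕ → ℂ → ℝ)
    (hu : Eigen Ω ρ lam u) (hg : Eigen Ω ρ mu g)
    (hr : Tendsto (fun n => mu n / lam n) atTop (𝓝 0))
    (m : ℂ → ℝ) (hm : ∀ K : Set ℂ, IsCompact K → K ⊆ Ω → MemLp m 2 (volume.restrict K))
    (ν : Kernel ℂ ℝ) [IsMarkovKernel ν]
    (hsc : ∀ φ, TF Ω φ → ∀ k : ℕ, Tendsto (fun n => ∫ z, ((φ z * ρ z : ℝ) : ℂ) *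
      ((u n z : ℂ) * (D ρ (lam n))^[k] (fun w => (u n w : ℂ)) z)) atTop
      (𝓝 (∫ z, ((φ z * ρ z : ℝ) : ℂ) * ((m z : ℂ) * ∫ α, sym α ^ k ∂(ν z)))))
    (hpar : ∀ᵐ z ∂(volume.restrict Ω), parallel (ν z) = 0)
    (K : Set ℂ) (hK : IsCompact K) (hKΩ : K ⊆ Ω) (φ : ℂ → ℝ) (hφ : TF (interior K) φ)
    (i j l : ℤ) :
    Tendsto (fun n => ‖∫ z, ((φ z * ρ z : ℝ) : ℂ) * (W ρ (lam n) (u n) i z *
      W ρ (lam n) (u n) j z * W ρ (lam n) (u n) l z * (g n z : ℂ))‖ ^ 4 /
        (nrm K (u n) ^ 3 * nrm K (g n))) atTop (𝓝 0) := by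
  have hl : ∀ f : ℕ → ℝ, Tendsto f atTop atTop → Tendsto (fun n => 1 / √(f n)) atTop (𝓝 0) := by
    intro f hf
    have : Tendsto (fun n => √(f n)) atTop atTop := Real.tendsto_sqrt_atTop.comp hf
    exact (this.inv_tendsto_atTop).congr (fun n => by simp [one_div])
  have hq : ∀ x : ℝ, 0 < x → (1 / √x) ^ 2 = 1 / x := fun x hx => by
    rw [div_pow, Real.sq_sqrt hx.le, one_pow]
  have H := Pool.Agent.TH294.RG.rawG_met (M := Pool.Agent.TH294.RG.MM m
    Pool.Agent.TH294.RG.ea ν) hΩ hu.pos hu.lim hρ hρ0 hu.smooth hu.eq hsc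
  have hp : ∀ᵐ z ∂(volume.restrict Ω), Pool.Agent.TH294.RG.par Pool.Agent.TH294.RG.ea (ν z) = 0 := by
    filter_upwards [hpar] with z hz
    simp only [Pool.Agent.TH294.RG.par, Pool.Agent.TH294.RG.ea_par]
    exact hz
  have hKi : interior K ⊆ Ω := interior_subset.trans hKΩ
  have hφ' : TF (interior K) (fun z => φ z * ρ z) :=
    Pool.Agent.TH294.RS.TF.mulc isOpen_interior hφ (hρ.mono hKi)
  have hrat : Tendsto (fun n => (1 / √(lam n)) / (1 / √(mu n))) atTop (𝓝 0) := by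
    have h1 := (Real.continuous_sqrt.tendsto _).comp hr
    rw [Real.sqrt_zero] at h1
    refine h1.congr fun n => ?_
    simp only [Function.comp_def]
    rw [Real.sqrt_div (hg.pos n).le]
    field_simp
  have heig : ∀ n, ∀ z ∈ Ω,
      (1 / √(mu n)) ^ 2 * ((1 / √(ρ z)) ^ 2 * lap (g n) z) + g n z = 0 := by
    intro n z hz
    have h1 := hg.eq n z hz
    have h3 := (hg.pos n).ne'
    have h5 := (hρ0 z hz).ne'
    have h4 : lap (g n) z = -(mu n * (ρ z * g n z)) := by linarith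
    rw [hq _ (hg.pos n), hq _ (hρ0 z hz), h4]
    field_simp
    ring
  have key := Pool.Agent.Q175.RW.TP.slow3 hΩ hm hp H
    (fun n => div_pos one_pos (Real.sqrt_pos.2 (hg.pos n))) (hl mu hg.lim)
    hrat hg.smooth heig hK hKΩ hφ' i j l
  refine key.congr fun n => ?_
  have hW : ∀ k, ∀ z ∈ interior K, Pool.Agent.TH294.RS.ww (fun z => 1 / √(ρ z))
      (fun n => 1 / √(lam n)) (fun n z => (u n z : ℂ)) k n z = W ρ (lam n) (u n) k z := by
    intro k z hz
    have e1 : ∀ k, (Pool.Agent.TH294.RS.DP (fun z => 1 / √(ρ z)) (1 / √(lam n)))^[k]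
        (fun w => (u n w : ℂ)) = (D ρ (lam n))^[k] (fun w => (u n w : ℂ)) := by
      intro k
      congr 1
      funext f z
      simp only [Pool.Agent.TH294.RS.DP, D, Pool.Agent.TH294.RS.dd]
      rw [Real.sqrt_mul (hu.pos n).le]
      push_cast
      ring
    cases k with
    | ofNat k =>
      show (Pool.Agent.TH294.RS.DP (fun z => 1 / √(ρ z)) (1 / √(lam n)))^[k] _ z = _
      rw [e1]; rfl
    | negSucc k =>
      show (-1) ^ (k + 1) * (starRingEnd ℂ) ((Pool.Agent.TH294.RS.DP (fun z => 1 / √(ρ z))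
        (1 / √(lam n)))^[k + 1] _ z) = _
      rw [e1]; rfl
  have e : ∫ z, ((φ z * ρ z : ℝ) : ℂ) * (Pool.Agent.TH294.RS.ww (fun z => 1 / √(ρ z))
      (fun n => 1 / √(lam n)) (fun n z => (u n z : ℂ)) i n z *
      Pool.Agent.TH294.RS.ww (fun z => 1 / √(ρ z))
      (fun n => 1 / √(lam n)) (fun n z => (u n z : ℂ)) j n z *
      Pool.Agent.TH294.RS.ww (fun z => 1 / √(ρ z))
      (fun n => 1 / √(lam n)) (fun n z => (u n z : ℂ)) l n z * (g n z : ℂ)) =
      ∫ z, ((φ z * ρ z : ℝ) : ℂ) * (W ρ (lam n) (u n) i z *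
      W ρ (lam n) (u n) j z * W ρ (lam n) (u n) l z * (g n z : ℂ)) := by
    congr 1; funext z
    by_cases hz : z ∈ interior K
    · rw [hW i z hz, hW j z hz, hW l z hz]
    · rw [Pool.Agent.TH294.RS.TF.zero hφ hz]; simp
  rw [e]
  rfl

end Pool.Agent.Results.MP_a52643_an.CubeTimesSlow
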