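import Pool.Agent.Q175.RW.LL3

/-!
# Limit laws of eigenfunctions with bounded fourth moments (MP_a52643_an)

A Riemannian surface in isothermal coordinates: an open set `Ω ⊆ ℂ` with the metric `ρ |dz|²`, of
finite area (it need not be relatively compact: a compact surface, or a surface of finite area, cut
along arcs). `dx f z`, `dy f z` are the partial derivatives `fderiv ℝ f z 1`, `fderiv ℝ f z I`, and
`lap f = dx (dx f) + dy (dy f)`; `TF Ω φ` says that `φ : ℂ → ℝ` is smooth with compact support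
contained in `Ω`.

In the metric rescaled by `λ` the operator `D = (λ ρ)^{-1/2} (∂x - i ∂y)` is the derivative
`∂_1 - i ∂_2` in the conformal orthonormal frame; at a unit momentum of direction `α` its symbol is
`sym α = i exp(-iα)`. The hypothesis `hsc` says that the semiclassical measure of `u n` projects to
the area measure, with conditional laws `κ z` of the directions; the hypothesis `hpar` says that
`κ z` has no atoms modulo `π`. Quantum ergodicity (`κ z` uniform) is a special case.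

A weak limit `ν` of the value distributions of such a sequence is `N(0,1)` according to Berry's
conjecture. The theorem concerns sequences whose total fourth moment is at most `K` times the area
(`K = 3` is the Gaussian value).

Proof idea. The third order structure theorem gives `∫ φ u³ → 0`, the small value inequality
`(∫ φ)² ≤ (∫_{|u| > s} φ)(∫ φ u⁴ - 2 ∫ φ) + ε (1 + ∫_S u⁴)` gives the bound of the atom, the
inequality `|A| (b P(u ≥ b))³ ≤ C P(u ∈ A)` for `A ⊆ (0, b)` (`Pool.Agent.Y139.PD`) gives the lower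
bound of the density, since a law with mean `0`, variance `1` and fourth moment `≤ K` has mass at
least `1/(16 K)` beyond `± 1/(4 √K)`. The fourth moment bound excludes escape of mass.
-/

set_option autoImplicit false
open MeasureTheory Filter Topology Complex ProbabilityTheory
open scoped ContDiff ENNReal

namespace Pool.Agent.Results.MP_a52643_an.LimitLaws

open Pool.Agent.W745.RW (TF dx dy lap)

/-- the normalised frame derivative `(λ ρ)^{-1/2} (∂x - i ∂y)` -/
noncomputable def D (ρ : ℂ → ℝ) (lam : ℝ) (f : ℂ → ℂ) (z : ℂ) : ℂ :=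
  ((1 / √(lam * ρ z) : ℝ) : ℂ) * (dx f z - I * dy f z)

/-- the symbol of `D` at a unit momentum of direction `α` -/
noncomputable def sym (α : ℝ) : ℂ := I * Complex.exp (-(α : ℂ) * I)

/-- the probability that two independent directions of law `ν` are parallel (equal or opposite) -/
noncomputable def parallel (ν : Measure ℝ) : ℝ :=
  (ν.prod ν).real {p | Real.sin (p.1 - p.2) = 0}

/-- the area measure of the metric `ρ |dz|²` on `Ω` -/
noncomputable def area (Ω : Set ℂ) (ρ : ℂ → ℝ) : Measure ℂ :=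
  (volume.restrict Ω).withDensity (fun z => ENNReal.ofReal (ρ z))

/-- `ν` is the weak limit, along a subsequence, of the laws of `u n` for the normalised area -/
def IsWeakLimit (Ω : Set ℂ) (ρ : ℂ → ℝ) (u : ℕ → ℂ → ℝ) (ν : Measure ℝ) : Prop :=
  ∃ σ : ℕ → ℕ, StrictMono σ ∧ ∀ g : ℝ → ℝ, Continuous g → (∃ M, ∀ x, |g x| ≤ M) →
    Tendsto (fun n => (∫ z, g (u (σ n) z) ∂(area Ω ρ)) / (area Ω ρ Set.univ).toReal) atTop
      (𝓝 (∫ x, g x ∂ν))

/-- **Result.** There is an absolute constant `c > 0` with the following property. Let `Ω` be a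
surface of finite area with metric `ρ |dz|²` and `u n` real solutions of `Δu + λ_n u = 0`
(that is `lap u + λ_n ρ u = 0`), `λ_n → ∞`, equidistributed, with semiclassical measure
`κ_z dvol(z)`, `κ_z` without atoms modulo `π`, and with
`limsup ∫ u⁴ dvol ≤ K area(Ω)`. Then every weak limit `ν` of the value distributions satisfies:

1. `∫ x dν = 0`, `∫ x² dν = 1`, `∫ x³ dν = 0`, `∫ x⁴ dν ≤ K`;
2. `(K - 2) ν{0} ≤ K - 3`;
3. `c |A| ≤ K^{9/2} ν(A)` for all Borel sets `A ⊆ (-1/(4√K), 1/(4√K))`;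
4. outside zero, `ν` is equivalent to Lebesgue measure on an open interval `J` containing
   `(-1/(4√K), 1/(4√K))`; if `K = 3`, then `ν` itself is equivalent to Lebesgue measure on `J`,
   in particular it has no atom. -/
theorem result : ∃ c : ℝ, 0 < c ∧ ∀ (Ω : Set ℂ) (ρ : ℂ → ℝ) (lam : ℕ → ℝ) (u : ℕ → ℂ → ℝ)
    (κ : Kernel ℂ ℝ) [IsMarkovKernel κ] (K : ℝ), IsOpen Ω → Ω.Nonempty → ContDiffOn ℝ ∞ ρ Ω →
    (∀ z ∈ Ω, 0 < ρ z) → area Ω ρ Set.univ ≠ ⊤ → (∀ n, 0 < lam n) → Tendsto lam atTop atTop →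
    (∀ n, ContDiffOn ℝ ∞ (u n) Ω) → (∀ n, ∀ z ∈ Ω, lap (u n) z + lam n * (ρ z * u n z) = 0) →
    (∀ φ, TF Ω φ → ∀ k : ℕ, Tendsto (fun n => ∫ z, ((φ z * ρ z : ℝ) : ℂ) *
      ((u n z : ℂ) * (D ρ (lam n))^[k] (fun w => (u n w : ℂ)) z)) atTop
      (𝓝 (∫ z, ((φ z * ρ z : ℝ) : ℂ) * ∫ α, sym α ^ k ∂(κ z)))) →
    (∀ᵐ z ∂(volume.restrict Ω), parallel (κ z) = 0) →
    (∀ n, Integrable (fun z => u n z ^ 4) (area Ω ρ)) →
    (∀ ε : ℝ, 0 < ε → ∀ᶠ n in atTop,
      ∫ z, u n z ^ 4 ∂(area Ω ρ) ≤ K * (area Ω ρ Set.univ).toReal + ε) →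
    ∀ ν : Measure ℝ, IsProbabilityMeasure ν → IsWeakLimit Ω ρ u ν →
      (∫ x, x ∂ν = 0 ∧ ∫ x, x ^ 2 ∂ν = 1 ∧ ∫ x, x ^ 3 ∂ν = 0 ∧
        Integrable (fun x : ℝ => x ^ 4) ν ∧ ∫ x, x ^ 4 ∂ν ≤ K) ∧
      (K - 2) * (ν {0}).toReal ≤ K - 3 ∧
      (∀ A : Set ℝ, MeasurableSet A → A ⊆ Set.Ioo (-(1 / (4 * √K))) (1 / (4 * √K)) →
        c * (volume A).toReal ≤ √K ^ 9 * (ν A).toReal) ∧
      ∃ J : Set ℝ, IsOpen J ∧ J.OrdConnected ∧ Set.Ioo (-(1 / (4 * √K))) (1 / (4 * √K)) ⊆ J ∧
        ν.restrict {0}ᶜ ≪ volume.restrict J ∧ volume.restrict J ≪ ν.restrict {0}ᶜ ∧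
        (K = 3 → ν {0} = 0 ∧ ν ≪ volume.restrict J ∧ volume.restrict J ≪ ν) := by
  obtain ⟨c, c0, key⟩ := Pool.Agent.Q175.RW.LL.main
  refine ⟨c, c0, ?_⟩
  intro Ω ρ lam u κ hκ K oΩ ne sρ pρ fin lp ll su eq hsc hpar i4 h4 ν hν hlim
  obtain ⟨σ, hσ, hg⟩ := hlim
  have X : Pool.Agent.Q175.RW.LL.LD Ω ρ lam u κ K := by
    refine ⟨oΩ, ne, sρ, pρ, fin, lp, ll, su, eq, fun φ hφ k => ?_, ?_, i4, h4⟩
    · have h1 := hsc φ hφ k
      have e : ∫ z, ((φ z * ρ z : ℝ) : ℂ) *
          Pool.Agent.TH294.RG.MM (fun _ => 1) Pool.Agent.TH294.RG.ea κ k z =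
          ∫ z, ((φ z * ρ z : ℝ) : ℂ) * ∫ α, sym α ^ k ∂(κ z) := by
        congr 1; funext z
        simp only [Pool.Agent.TH294.RG.MM, ofReal_one, one_mul]
        rfl
      rw [e]
      exact h1
    · filter_upwards [hpar] with z hz
      simp only [Pool.Agent.TH294.RG.par, Pool.Agent.TH294.RG.ea_par]
      exact hz
  obtain ⟨k1, k2, k3, J, j1, j2, j3, j4, j5⟩ := key Ω ρ lam u κ K hκ X ν σ hν hσ hg
  refine ⟨k1, k2, k3, J, j1, j2, j3, j4, j5, fun hK => ?_⟩
  have h0 : (ν {0}).toReal ≤ 0 := by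
    rw [hK] at k2
    linarith
  have h1 : ν {0} = 0 := by
    have := le_antisymm h0 ENNReal.toReal_nonneg
    rcases (ENNReal.toReal_eq_zero_iff _).1 this with h | h
    · exact h
    · exact absurd h (measure_ne_top ν _)
  have h2 : ν.restrict {0}ᶜ = ν := by
    refine Measure.restrict_eq_self_of_ae_mem ?_
    rw [ae_iff]
    have : {x : ℝ | ¬ x ∈ ({0}ᶜ : Set ℝ)} = {0} := by
      ext x; simp
    rw [this]; exact h1
  rw [h2] at j4 j5
  exact ⟨h1, j4, j5⟩

end Pool.Agent.Results.MP_a52643_an.LimitLaws
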