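import Pool.Agent.Q175.RW.SX3

/-!
# A Stein inequality for the limit laws of eigenfunctions (MP_a52643_an)

A Riemannian surface in isothermal coordinates: an open set `Ω ⊆ ℂ` with the metric `ρ |dz|²`, of
finite area (it need not be relatively compact: a compact surface, or a surface of finite area, cut
along arcs). `dx f z`, `dy f z` are the partial derivatives `fderiv ℝ f z 1`, `fderiv ℝ f z I`, and
`lap f = dx (dx f) + dy (dy f)`; `TF Ω φ` says that `φ : ℂ → ℝ` is smooth with compact support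
contained in `Ω`.

In the metric rescaled by `λ` the operator `D = (λ ρ)^{-1/2} (∂x - i ∂y)` is the derivative
`∂_1 - i ∂_2` in the conformal orthonormal frame; at a unit momentum of direction `α` its symbol is
`sym α = i exp(-iα)`. The hypothesis `hsc` says that the semiclassical measure of `u n` projects to
the area measure, with conditional laws `κ z` of the directions; the hypothesis `hpar` says that
`κ z` has no atoms modulo `π`. Quantum ergodicity (`κ z` uniform) is a special case, with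
`angle = 1`.

According to Berry's conjecture a weak limit `ν` of the value distributions is `N(0,1)`, which is
characterised by `∫ x W(x) dν = ∫ W'(x) dν` for all `W`.

Proof idea. For `G = |∇u|²/λ` integration by parts gives `∫ φ u W(u) = ∫ φ W'(u) G + O(λ^{-1/2})`,
and `G = u² + Δ(u²)/(2 λ)`, so that the power spectrum of `u²` gives
`∫ φ G² = ∫ φ u⁴ - ∫ φ (2 - 2 E cos²) + o(1)`.
-/

set_option autoImplicit false
open MeasureTheory Filter Topology Complex ProbabilityTheory
open scoped ContDiff ENNReal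

namespace Pool.Agent.Results.MP_a52643_an.SteinInequality

open Pool.Agent.W745.RW (TF dx dy lap)

/-- the normalised frame derivative `(λ ρ)^{-1/2} (∂x - i ∂y)` -/
noncomputable def D (ρ : ℂ → ℝ) (lam : ℝ) (f : ℂ → ℂ) (z : ℂ) : ℂ :=
  ((1 / √(lam * ρ z) : ℝ) : ℂ) * (dx f z - I * dy f z)

/-- the symbol of `D` at a unit momentum of direction `α` -/
noncomputable def sym (α : ℝ) : ℂ := I * Complex.exp (-(α : ℂ) * I)

/-- the probability that two independent directions of law `ν` are parallel (equal or opposite) -/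
noncomputable def parallel (ν : Measure ℝ) : ℝ :=
  (ν.prod ν).real {p | Real.sin (p.1 - p.2) = 0}

/-- the area measure of the metric `ρ |dz|²` on `Ω` -/
noncomputable def area (Ω : Set ℂ) (ρ : ℂ → ℝ) : Measure ℂ :=
  (volume.restrict Ω).withDensity (fun z => ENNReal.ofReal (ρ z))

/-- the mean over the surface of `2 cos²` of the angle between two independent directions;
it is at most `2`, and it is `1` for uniform directions -/
noncomputable def angle (Ω : Set ℂ) (ρ : ℂ → ℝ) (κ : Kernel ℂ ℝ) : ℝ :=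
  (∫ z, (∫ p, 2 * Real.cos (p.1 - p.2) ^ 2 ∂((κ z).prod (κ z))) ∂(area Ω ρ)) /
    (area Ω ρ Set.univ).toReal

/-- `ν` is the weak limit, along a subsequence, of the laws of `u n` for the normalised area -/
def IsWeakLimit (Ω : Set ℂ) (ρ : ℂ → ℝ) (u : ℕ → ℂ → ℝ) (ν : Measure ℝ) : Prop :=
  ∃ σ : ℕ → ℕ, StrictMono σ ∧ ∀ g : ℝ → ℝ, Continuous g → (∃ M, ∀ x, |g x| ≤ M) →
    Tendsto (fun n => (∫ z, g (u (σ n) z) ∂(area Ω ρ)) / (area Ω ρ Set.univ).toReal) atTop
      (𝓝 (∫ x, g x ∂ν))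

/-- **Result.** Let `Ω` be a surface of finite area with metric `ρ |dz|²` and `u n` real solutions
of `Δu + λ_n u = 0` (that is `lap u + λ_n ρ u = 0`), `λ_n → ∞`, equidistributed, with semiclassical
measure `κ_z dvol(z)`, `κ_z` without atoms modulo `π`, and with
`limsup ∫ u⁴ dvol ≤ K area(Ω)`. Then every weak limit `ν` of the value distributions satisfies
`(∫ x W(x) dν)² ≤ (K - 2 + angle) ∫ W'(x)² dν` for every `C¹` function `W` whose derivative has
compact support. -/
theorem result (Ω : Set ℂ) (ρ : ℂ → ℝ) (lam : ℕ → ℝ) (u : ℕ → ℂ → ℝ)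
    (κ : Kernel ℂ ℝ) [IsMarkovKernel κ] (K : ℝ) (oΩ : IsOpen Ω) (ne : Ω.Nonempty)
    (sρ : ContDiffOn ℝ ∞ ρ Ω) (pρ : ∀ z ∈ Ω, 0 < ρ z) (fin : area Ω ρ Set.univ ≠ ⊤)
    (lp : ∀ n, 0 < lam n) (ll : Tendsto lam atTop atTop)
    (su : ∀ n, ContDiffOn ℝ ∞ (u n) Ω)
    (eq : ∀ n, ∀ z ∈ Ω, lap (u n) z + lam n * (ρ z * u n z) = 0)
    (hsc : ∀ φ, TF Ω φ → ∀ k : ℕ, Tendsto (fun n => ∫ z, ((φ z * ρ z : ℝ) : ℂ) *
      ((u n z : ℂ) * (D ρ (lam n))^[k] (fun w => (u n w : ℂ)) z)) atTop
      (𝓝 (∫ z, ((φ z * ρ z : ℝ) : ℂ) * ∫ α, sym α ^ k ∂(κ z))))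
    (hpar : ∀ᵐ z ∂(volume.restrict Ω), parallel (κ z) = 0)
    (i4 : ∀ n, Integrable (fun z => u n z ^ 4) (area Ω ρ))
    (h4 : ∀ ε : ℝ, 0 < ε → ∀ᶠ n in atTop,
      ∫ z, u n z ^ 4 ∂(area Ω ρ) ≤ K * (area Ω ρ Set.univ).toReal + ε)
    (ν : Measure ℝ) (hν : IsProbabilityMeasure ν) (hlim : IsWeakLimit Ω ρ u ν)
    (W : ℝ → ℝ) (hW : ContDiff ℝ 1 W) (hW' : HasCompactSupport (deriv W)) :
    (∫ x, x * W x ∂ν) ^ 2 ≤ (K - 2 + angle Ω ρ κ) * ∫ x, deriv W x ^ 2 ∂ν := by
  obtain ⟨σ, hσ, hg⟩ := hlim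
  have X : Pool.Agent.Q175.RW.LL.LD Ω ρ lam u κ K := by
    refine ⟨oΩ, ne, sρ, pρ, fin, lp, ll, su, eq, fun φ hφ k => ?_, ?_, i4, h4⟩
    · have h1 := hsc φ hφ k
      have e : ∫ z, ((φ z * ρ z : ℝ) : ℂ) *
          Pool.Agent.TH294.RG.MM (fun _ => 1) Pool.Agent.TH294.RG.ea κ k z =
          ∫ z, ((φ z * ρ z : ℝ) : ℂ) * ∫ α, sym α ^ k ∂(κ z) := by
        congr 1; funext z
        simp only [Pool.Agent.TH294.RG.MM, ofReal_one, one_mul]
        rfl
      rw [e]
      exact h1
    · filter_upwards [hpar] with z hz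
      simp only [Pool.Agent.TH294.RG.par, Pool.Agent.TH294.RG.ea_par]
      exact hz
  -- mean zero
  obtain ⟨c, c0, key⟩ := Pool.Agent.Q175.RW.LL.main
  obtain ⟨⟨m1, m2, m3, i4ν, m4⟩, -⟩ := key Ω ρ lam u κ K inferInstance X ν σ hν hσ hg
  have cw : Continuous (deriv W) := hW.continuous_deriv le_rfl
  have dW : ∀ x, HasDerivAt W (deriv W x) x := fun x =>
    (hW.differentiable (by norm_num) x).hasDerivAt
  have eW : ∀ x, W x = W 0 + Pool.Agent.Q175.RW.SX.P (deriv W) x := by
    intro x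
    unfold Pool.Agent.Q175.RW.SX.P
    rw [intervalIntegral.integral_eq_sub_of_hasDerivAt (fun t _ => dW t)
      (cw.intervalIntegrable _ _)]
    ring
  obtain ⟨M1, hM1⟩ := hW'.exists_bound_of_continuous cw
  have iw : Integrable (deriv W) := cw.integrable_of_hasCompactSupport hW'
  have hP : ∀ x, |Pool.Agent.Q175.RW.SX.P (deriv W) x| ≤ ∫ t, |deriv W t| := by
    intro x
    unfold Pool.Agent.Q175.RW.SX.P
    refine (intervalIntegral.norm_integral_le_integral_norm_uIoc (f := deriv W)).trans ?_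
    exact setIntegral_le_integral iw.norm (ae_of_all _ fun t => norm_nonneg _)
  have k := Pool.Agent.Q175.RW.SX.lim_stein X hσ hg cw
    (M := max (∫ t, |deriv W t|) M1) (fun x => (hP x).trans (le_max_left _ _))
    (fun x => (hM1 x).trans (le_max_right _ _))
  have ix : Integrable (fun x : ℝ => x) ν := by
    have h1 : Integrable (fun x : ℝ => 1 + x ^ 4) ν := (integrable_const 1).add i4ν
    refine Integrable.mono' h1 continuous_id.aestronglyMeasurable (ae_of_all _ fun x => ?_)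
    rw [Real.norm_eq_abs, abs_le]
    constructor <;> nlinarith [sq_nonneg (x ^ 2 - 1), sq_nonneg (x - 1), sq_nonneg (x + 1)]
  have ixP : Integrable (fun x : ℝ => x * Pool.Agent.Q175.RW.SX.P (deriv W) x) ν := by
    refine ix.mul_bdd (c := ∫ t, |deriv W t|)
      (Pool.Agent.Q175.RW.SX.P_c cw).aestronglyMeasurable (ae_of_all _ fun x => hP x)
  have e1 : ∫ x, x * W x ∂ν = ∫ x, x * Pool.Agent.Q175.RW.SX.P (deriv W) x ∂ν := by
    have : ∀ x, x * W x = W 0 * x + x * Pool.Agent.Q175.RW.SX.P (deriv W) x := fun x => by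
      rw [eW x]; ring
    simp only [this]
    rw [integral_add (ix.const_mul _) ixP, integral_const_mul, m1, mul_zero, zero_add]
  rw [e1]
  exact k

end Pool.Agent.Results.MP_a52643_an.SteinInequality
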